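import Pool.Agent.THG.V.Ep0

/-!
# THG/V-EP: quotients of exponential polynomials, far to the left

`Gd f`: for `Re z` small `f` is a quotient of two functions of THG/V/Ep0, the denominator has no zeros there.
-/

namespace Pool.Agent.THG

open Pool.Agent.MD

/-- for small real part, a quotient of two exponential polynomials -/
def Gd (f : ℂ → ℂ) : Prop :=
  ∃ P Q : ℂ → ℂ, Ep P ∧ Ep Q ∧ ∃ b : ℝ, ∀ z : ℂ, z.re < b → Q z ≠ 0 ∧ f z * Q z = P z

theorem Ep.gd {f : ℂ → ℂ} (hf : Ep f) : Gd f :=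
  ⟨f, fun _ => 1, hf, Ep.const 1, 0, fun _ _ => ⟨one_ne_zero, mul_one _⟩⟩

theorem Gd.congr {f g : ℂ → ℂ} (hf : Gd f) {b : ℝ} (h : ∀ z : ℂ, z.re < b → f z = g z) :
    Gd g := by
  obtain ⟨P, Q, hP, hQ, b', h'⟩ := hf
  refine ⟨P, Q, hP, hQ, min b b', fun z hz => ?_⟩
  obtain ⟨h1, h2⟩ := h' z (hz.trans_le (min_le_right _ _))
  refine ⟨h1, ?_⟩
  rw [← h z (hz.trans_le (min_le_left _ _))]
  exact h2

theorem Gd.add {f g : ℂ → ℂ} (hf : Gd f) (hg : Gd g) : Gd fun z => f z + g z := by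
  obtain ⟨P, Q, hP, hQ, b, h⟩ := hf
  obtain ⟨P', Q', hP', hQ', b', h'⟩ := hg
  refine ⟨fun z => P z * Q' z + P' z * Q z, fun z => Q z * Q' z, (hP.mul hQ').add (hP'.mul hQ),
    hQ.mul hQ', min b b', fun z hz => ?_⟩
  obtain ⟨h1, h2⟩ := h z (hz.trans_le (min_le_left _ _))
  obtain ⟨h3, h4⟩ := h' z (hz.trans_le (min_le_right _ _))
  refine ⟨mul_ne_zero h1 h3, ?_⟩
  dsimp only
  rw [← h2, ← h4]
  ring

theorem Gd.mul {f g : ℂ → ℂ} (hf : Gd f) (hg : Gd g) : Gd fun z => f z * g z := by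
  obtain ⟨P, Q, hP, hQ, b, h⟩ := hf
  obtain ⟨P', Q', hP', hQ', b', h'⟩ := hg
  refine ⟨fun z => P z * P' z, fun z => Q z * Q' z, hP.mul hP', hQ.mul hQ', min b b',
    fun z hz => ?_⟩
  obtain ⟨h1, h2⟩ := h z (hz.trans_le (min_le_left _ _))
  obtain ⟨h3, h4⟩ := h' z (hz.trans_le (min_le_right _ _))
  refine ⟨mul_ne_zero h1 h3, ?_⟩
  dsimp only
  rw [← h2, ← h4]
  ring

theorem Gd.inv {f : ℂ → ℂ} (hf : Gd f) : Gd fun z => (f z)⁻¹ := by
  obtain ⟨P, Q, hP, hQ, b, h⟩ := hf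
  by_cases h0 : ∀ z, P z = 0
  · refine ⟨fun _ => 0, fun _ => 1, Ep.const 0, Ep.const 1, b, fun z hz => ⟨one_ne_zero, ?_⟩⟩
    obtain ⟨h1, h2⟩ := h z hz
    rw [h0 z] at h2
    have h3 : f z = 0 := (mul_eq_zero.1 h2).resolve_right h1
    dsimp only
    rw [h3, inv_zero, zero_mul]
  · push Not at h0
    obtain ⟨z0, hz0⟩ := h0
    obtain ⟨b', h'⟩ := hP.ne hz0
    refine ⟨Q, P, hQ, hP, min b b', fun z hz => ?_⟩
    obtain ⟨h1, h2⟩ := h z (hz.trans_le (min_le_left _ _))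
    have h3 := h' z (hz.trans_le (min_le_right _ _))
    refine ⟨h3, ?_⟩
    have h4 : f z ≠ 0 := by
      rw [← h2] at h3
      exact left_ne_zero_of_mul h3
    dsimp only
    rw [← h2, inv_mul_cancel_left₀ h4]

theorem Gd.sum {ι : Type} (s : Finset ι) {f : ι → ℂ → ℂ} (hf : ∀ i ∈ s, Gd (f i)) :
    Gd fun z => ∑ i ∈ s, f i z := by
  classical
  induction s using Finset.induction_on with
  | empty =>
    simp only [Finset.sum_empty]
    exact (Ep.const 0).gd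
  | insert a s ha ih =>
    simp only [Finset.sum_insert ha]
    exact (hf a (Finset.mem_insert_self a s)).add
      (ih fun i hi => hf i (Finset.mem_insert_of_mem hi))

theorem Gd.prod {ι : Type} (s : Finset ι) {f : ι → ℂ → ℂ} (hf : ∀ i ∈ s, Gd (f i)) :
    Gd fun z => ∏ i ∈ s, f i z := by
  classical
  induction s using Finset.induction_on with
  | empty =>
    simp only [Finset.prod_empty]
    exact (Ep.const 1).gd
  | insert a s ha ih =>
    simp only [Finset.prod_insert ha]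
    exact (hf a (Finset.mem_insert_self a s)).mul
      (ih fun i hi => hf i (Finset.mem_insert_of_mem hi))

/-- affine substitution which moves to the left -/
theorem Gd.aff {f : ℂ → ℂ} (hf : Gd f) {α : ℝ} (hα : 0 < α) (β : ℝ) :
    Gd fun z => f ((α : ℂ) * z + (β : ℂ)) := by
  obtain ⟨P, Q, hP, hQ, b, h⟩ := hf
  refine ⟨fun z => P ((α : ℂ) * z + (β : ℂ)), fun z => Q ((α : ℂ) * z + (β : ℂ)), hP.aff α β,
    hQ.aff α β, (b - β) / α, fun z hz => ?_⟩
  refine h _ ?_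
  rw [Complex.add_re, Complex.re_ofReal_mul, Complex.ofReal_re]
  rw [lt_div_iff₀ hα] at hz
  linarith

/-- the dichotomy -/
theorem Gd.dich {f : ℂ → ℂ} (hf : Gd f) : (∃ b : ℝ, ∀ z : ℂ, z.re < b → f z = 0) ∨
    ∃ b : ℝ, ∀ z : ℂ, z.re < b → f z ≠ 0 ∧ AnalyticAt ℂ f z ∧ LogO f z 0 := by
  obtain ⟨P, Q, hP, hQ, b, h⟩ := hf
  by_cases h0 : ∀ z, P z = 0
  · left
    refine ⟨b, fun z hz => ?_⟩
    obtain ⟨h1, h2⟩ := h z hz
    rw [h0 z] at h2
    exact (mul_eq_zero.1 h2).resolve_right h1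
  · right
    push Not at h0
    obtain ⟨z0, hz0⟩ := h0
    obtain ⟨b', h'⟩ := hP.ne hz0
    refine ⟨min b b', fun z hz => ?_⟩
    have hzb := hz.trans_le (min_le_left b b')
    obtain ⟨h1, h2⟩ := h z hzb
    have h3 := h' z (hz.trans_le (min_le_right _ _))
    have h4 : f z ≠ 0 := by
      rw [← h2] at h3
      exact left_ne_zero_of_mul h3
    have h5 : (fun w => P w / Q w) =ᶠ[nhds z] f := by
      have hop : IsOpen {w : ℂ | w.re < b} := isOpen_lt Complex.continuous_re continuous_const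
      filter_upwards [hop.mem_nhds hzb] with w hw
      obtain ⟨h6, h7⟩ := h w hw
      rw [← h7, mul_div_cancel_right₀ _ h6]
    have h8 : AnalyticAt ℂ f z :=
      ((hP.diff.analyticAt z).div (hQ.diff.analyticAt z) h1).congr h5
    refine ⟨h4, h8, ?_⟩
    have h9 : analyticOrderAt f z = ((0 : ℕ) : ℕ∞) := by
      rw [Nat.cast_zero]
      exact h8.analyticOrderAt_eq_zero.2 h4
    have h10 := logO_of h8 h9
    rw [Nat.cast_zero] at h10
    exact h10

end Pool.Agent.THG
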