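import Pool.Agent.MD.S.OrdL

/-!
# THG/V-Ep0: exponential polynomials with real frequencies

`Ep f`: `f z = ∑ c_i exp (μ_i z)`, a finite sum, `μ_i` real (equal frequencies allowed).
PLAN.  `Ep.mul`: the sum over `Fin n × Fin m` (frequencies `μ + ν`), transported to `Fin (n * m)` (`finProdFinEquiv`); `Ep.add`: `Fin (n + m)` (`Fin.sum_univ_add`, `Fin.append` or `Fin.addCases`).  `Ep.aff`: `z ↦ f (α z + β)`: coefficients `c_i exp (μ_i β)`, frequencies `α μ_i`.
`Ep.cpow`: `A ^ (α z + β) = exp (log A (α z + β))` (`Complex.cpow_def_of_ne_zero`, `Complex.ofReal_log`).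
`Ep.ne`: collect equal frequencies: `f z = ∑ μ ∈ F, d μ exp (μ z)` (`F` the finite set of the frequencies, `d μ = ∑ i with μ_i = μ, c_i`, `Finset.sum_fiberwise`), drop the `μ` with `d μ = 0`; the remaining set `F'` is nonempty since `f z0 ≠ 0`; let `μ0` be its smallest element:
`‖f z‖ ≥ ‖d μ0‖ exp (μ0 Re z) - ∑_(μ ≠ μ0) ‖d μ‖ exp (μ Re z) = exp (μ0 Re z) (‖d μ0‖ - ∑ ‖d μ‖ exp ((μ - μ0) Re z))`, and the last sum tends to `0` for `Re z → -∞`.
-/

namespace Pool.Agent.THG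

open Pool.Agent.MD

/-- exponential polynomial with real frequencies -/
def Ep (f : ℂ → ℂ) : Prop :=
  ∃ (n : ℕ) (c : Fin n → ℂ) (μ : Fin n → ℝ), ∀ z : ℂ, f z = ∑ i, c i * Complex.exp ((μ i : ℂ) * z)

theorem Ep.const (c : ℂ) : Ep fun _ => c :=
  ⟨1, fun _ => c, fun _ => 0, fun z => by simp⟩

theorem Ep.exp (μ : ℝ) : Ep fun z => Complex.exp ((μ : ℂ) * z) :=
  ⟨1, fun _ => 1, fun _ => μ, fun z => by simp⟩

theorem Ep.add {f g : ℂ → ℂ} (hf : Ep f) (hg : Ep g) : Ep fun z => f z + g z := by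
  obtain ⟨n, c, μ, h⟩ := hf
  obtain ⟨m, d, ν, k⟩ := hg
  refine ⟨n + m, Fin.append c d, Fin.append μ ν, fun z => ?_⟩
  rw [Fin.sum_univ_add]
  simp only [Fin.append_left, Fin.append_right]
  rw [h z, k z]

theorem Ep.mul {f g : ℂ → ℂ} (hf : Ep f) (hg : Ep g) : Ep fun z => f z * g z := by
  obtain ⟨n, c, μ, h⟩ := hf
  obtain ⟨m, d, ν, k⟩ := hg
  refine ⟨n * m, fun i => c (finProdFinEquiv.symm i).1 * d (finProdFinEquiv.symm i).2,
    fun i => μ (finProdFinEquiv.symm i).1 + ν (finProdFinEquiv.symm i).2, fun z => ?_⟩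
  have e := Equiv.sum_comp (finProdFinEquiv (m := n) (n := m)).symm
    (fun p : Fin n × Fin m => c p.1 * d p.2 * Complex.exp (((μ p.1 + ν p.2 : ℝ) : ℂ) * z))
  beta_reduce
  rw [e, h z, k z, Fintype.sum_prod_type, Finset.sum_mul_sum]
  refine Finset.sum_congr rfl fun i _ => Finset.sum_congr rfl fun j _ => ?_
  rw [Complex.ofReal_add, add_mul, Complex.exp_add]
  ring

theorem Ep.sub {f g : ℂ → ℂ} (hf : Ep f) (hg : Ep g) : Ep fun z => f z - g z := by
  obtain ⟨n, c, μ, h⟩ := Ep.add hf (Ep.mul (Ep.const (-1)) hg)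
  refine ⟨n, c, μ, fun z => ?_⟩
  rw [← h z]
  ring

/-- affine substitution -/
theorem Ep.aff {f : ℂ → ℂ} (hf : Ep f) (α β : ℝ) : Ep fun z => f ((α : ℂ) * z + (β : ℂ)) := by
  obtain ⟨n, c, μ, h⟩ := hf
  refine ⟨n, fun i => c i * Complex.exp ((μ i : ℂ) * (β : ℂ)), fun i => α * μ i, fun z => ?_⟩
  beta_reduce
  rw [h]
  refine Finset.sum_congr rfl fun i _ => ?_
  rw [mul_assoc, ← Complex.exp_add]
  congr 2
  push_cast
  ring

/-- a power with a positive real base and an affine exponent -/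
theorem Ep.cpow {A : ℝ} (hA : 0 < A) (α β : ℝ) :
    Ep fun z => (A : ℂ) ^ ((α : ℂ) * z + (β : ℂ)) := by
  obtain ⟨n, c, μ, h⟩ := Ep.aff (Ep.exp (Real.log A)) α β
  refine ⟨n, c, μ, fun z => ?_⟩
  rw [← h z]
  beta_reduce
  rw [Complex.cpow_def_of_ne_zero (Complex.ofReal_ne_zero.2 hA.ne'), Complex.ofReal_log hA.le]

theorem Ep.ne {f : ℂ → ℂ} (hf : Ep f) {z0 : ℂ} (h0 : f z0 ≠ 0) :
    ∃ b : ℝ, ∀ z : ℂ, z.re < b → f z ≠ 0 := by
  classical
  obtain ⟨n, c, μ, h⟩ := hf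
  obtain ⟨F, d, hd, hF⟩ : ∃ (F : Finset ℝ) (d : ℝ → ℂ), (∀ x ∈ F, d x ≠ 0) ∧
      ∀ z : ℂ, f z = ∑ x ∈ F, d x * Complex.exp ((x : ℂ) * z) := by
    let d : ℝ → ℂ := fun x => ∑ i ∈ Finset.univ.filter (fun i : Fin n => μ i = x), c i
    refine ⟨(Finset.univ.image μ).filter (fun x => d x ≠ 0), d,
      fun x hx => (Finset.mem_filter.1 hx).2, fun z => ?_⟩
    have h1 := Finset.sum_fiberwise_of_maps_to (s := Finset.univ) (t := Finset.univ.image μ)
      (g := μ) (fun i hi => Finset.mem_image_of_mem μ hi)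
      (fun i => c i * Complex.exp ((μ i : ℂ) * z))
    rw [h z, ← h1]
    have h2 : ∀ x ∈ Finset.univ.image μ,
        (∑ i ∈ Finset.univ.filter (fun i : Fin n => μ i = x),
          c i * Complex.exp ((μ i : ℂ) * z)) = d x * Complex.exp ((x : ℂ) * z) := by
      intro x _
      have h3 : d x * Complex.exp ((x : ℂ) * z) =
          ∑ i ∈ Finset.univ.filter (fun i : Fin n => μ i = x), c i * Complex.exp ((x : ℂ) * z) :=
        Finset.sum_mul _ _ _
      rw [h3]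
      refine Finset.sum_congr rfl fun i hi => ?_
      rw [(Finset.mem_filter.1 hi).2]
    rw [Finset.sum_congr rfl h2]
    symm
    apply Finset.sum_filter_of_ne
    intro x _ hx h3
    apply hx
    rw [h3, zero_mul]
  have hne : F.Nonempty := by
    rw [Finset.nonempty_iff_ne_empty]
    intro h1
    apply h0
    rw [hF z0, h1, Finset.sum_empty]
  have hm : F.min' hne ∈ F := Finset.min'_mem F hne
  set m : ℝ := F.min' hne with hmdef
  have hlim : Filter.Tendsto (fun t : ℝ => ∑ x ∈ F.erase m, ‖d x‖ * Real.exp ((x - m) * t))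
      Filter.atBot (nhds 0) := by
    have h1 : (0 : ℝ) = ∑ x ∈ F.erase m, ‖d x‖ * 0 := by simp
    rw [h1]
    refine tendsto_finsetSum _ fun x hx => ?_
    refine Filter.Tendsto.const_mul _ ?_
    have h2 : m < x := by
      rcases Finset.mem_erase.1 hx with ⟨h3, h4⟩
      exact lt_of_le_of_ne (Finset.min'_le F x h4) (Ne.symm h3)
    refine Real.tendsto_exp_atBot.comp ?_
    exact Filter.Tendsto.const_mul_atBot (sub_pos.2 h2) Filter.tendsto_id
  have hpos : 0 < ‖d m‖ := norm_pos_iff.2 (hd m hm)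
  have hev := hlim.eventually (gt_mem_nhds hpos)
  obtain ⟨b, hb⟩ := Filter.eventually_atBot.1 hev
  refine ⟨b, fun z hz h1 => ?_⟩
  have h2 := hb z.re hz.le
  rw [hF z, ← Finset.add_sum_erase F _ hm] at h1
  have h3 : ‖d m * Complex.exp ((m : ℂ) * z)‖ ≤
      ∑ x ∈ F.erase m, ‖d x * Complex.exp ((x : ℂ) * z)‖ := by
    rw [eq_neg_of_add_eq_zero_left h1, norm_neg]
    exact norm_sum_le _ _
  have h4 : ∀ x : ℝ, ‖d x * Complex.exp ((x : ℂ) * z)‖ =
      Real.exp (m * z.re) * (‖d x‖ * Real.exp ((x - m) * z.re)) := by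
    intro x
    have h5 : ((x : ℂ) * z).re = x * z.re := by simp
    have h6 : x * z.re = m * z.re + (x - m) * z.re := by ring
    rw [norm_mul, Complex.norm_exp, h5, h6, Real.exp_add]
    ring
  rw [h4 m, Finset.sum_congr rfl fun x _ => h4 x, ← Finset.mul_sum, sub_self, zero_mul,
    Real.exp_zero, mul_one] at h3
  have h7 := le_of_mul_le_mul_left h3 (Real.exp_pos _)
  exact absurd h2 (not_lt.2 h7)

theorem Ep.diff {f : ℂ → ℂ} (hf : Ep f) : Differentiable ℂ f := by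
  obtain ⟨n, c, μ, h⟩ := hf
  have e : f = fun z => ∑ i, c i * Complex.exp ((μ i : ℂ) * z) := funext h
  rw [e]
  fun_prop

end Pool.Agent.THG
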