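import Pool.Agent.THG.V.EP
import Pool.Agent.QD.In.Def
import Pool.Agent.QD.In.LocF
import Pool.Agent.QD.In.Pl
import Pool.Agent.QD.In.CongD
import Pool.Agent.QD.In.CongL
import Pool.Agent.HWR.SumNrm

/-!
# THG/V-GGX: the factor `GGX` is a power of a quotient of gamma factors times a quotient of exponential polynomials

`GGX S D a x s = wx * (D0^2 cdx)^(1-s) * (gam1 (2-s) * (gam1 s)⁻¹)^(2n) * (plx s * (plx (2-s))⁻¹) * ∏ (FF (2-s) * (FF s)⁻¹)` (QD/In/Def); all factors except the gamma factor are exponential polynomials or inverses of such.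
-/

namespace Pool.Agent.THG

open NumberField IsDedekindDomain Pool.Agent.HWR Pool.Agent.QD Pool.Agent.QD.In

private theorem vg_congr {f g : ℂ → ℂ} (hf : Ep f) (h : ∀ z, f z = g z) : Ep g := by
  have h1 : f = g := funext h
  rw [← h1]
  exact hf

private theorem vg_plL (L : List (ℂ × ℕ)) (hL : ∀ x ∈ L, x.2.Prime) : Ep (plL L) := by
  induction L with
  | nil =>
    refine vg_congr (Ep.const 1) fun z => ?_
    rw [plL, List.map_nil, List.prod_nil]
  | cons x L ih =>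
    have h1 := ih fun y hy => hL y (List.mem_cons_of_mem _ hy)
    have h2 : (0 : ℝ) < (x.2 : ℝ) := by
      exact_mod_cast (hL x List.mem_cons_self).pos
    refine vg_congr (((Ep.const 1).sub ((Ep.const x.1).mul (Ep.cpow h2 (-1) 0))).mul h1)
      fun z => ?_
    have h3 : (((-1 : ℝ) : ℂ) * z + ((0 : ℝ) : ℂ)) = -z := by
      push_cast
      ring
    rw [h3, Complex.ofReal_natCast]
    simp only [plL, List.map_cons, List.prod_cons]

theorem pl_ep {T : Finset ℕ} (D : LocData T) (F : Type) [Field F] [NumberField F] :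
    Ep (D.pl F) := by
  obtain ⟨L, hL, hL'⟩ := pl_list D F
  exact vg_congr (vg_plL L fun x hx => (hL x hx).1) fun z => (hL' z).symm

private theorem vg_plx {K : Type} [Field K] [NumberField K] {T : Finset ℕ} (D : LocData T)
    (x : Kˣ) : Ep (plx D x) := by
  by_cases h : IsSquare x
  · refine vg_congr ((pl_ep D K).mul (pl_ep D K)) fun z => ?_
    unfold plx
    rw [dif_pos h, sq]
  · refine vg_congr (pl_ep D (qf h).L) fun z => ?_
    unfold plx
    rw [dif_neg h]

private theorem vg_two {f : ℂ → ℂ} (hf : Ep f) : Ep fun z => f (2 - z) := by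
  refine vg_congr (hf.aff (-1) 2) fun z => ?_
  congr 1
  push_cast
  ring

private theorem vg_efi (a : ℕ → ℝ) {q : ℕ} (hq : q ≠ 0) : Ep (efi a q) := by
  have h2 : (0 : ℝ) < (q : ℝ) := by
    exact_mod_cast Nat.pos_of_ne_zero hq
  refine vg_congr (((Ep.const 1).sub ((Ep.const (a q : ℂ)).mul (Ep.cpow h2 (-1) 0))).add
    (Ep.cpow h2 (-2) 1)) fun z => ?_
  have h3 : (((-1 : ℝ) : ℂ) * z + ((0 : ℝ) : ℂ)) = -z := by
    push_cast
    ring
  have h4 : (((-2 : ℝ) : ℂ) * z + ((1 : ℝ) : ℂ)) = 1 - 2 * z := by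
    push_cast
    ring
  rw [h3, h4, Complex.ofReal_natCast]
  rfl

private theorem vg_ffi (a : ℕ → ℝ) {q : ℕ} (hq : q ≠ 0) (u : ℂ) :
    Ep fun s => (FF a q u s)⁻¹ := by
  by_cases h1 : u = 1
  · refine vg_congr ((vg_efi a hq).mul (vg_efi a hq)) fun z => ?_
    rw [ffi_eq, if_pos h1, sq]
  · by_cases h2 : u = -1
    · refine vg_congr (vg_efi a (pow_ne_zero 2 hq)) fun z => ?_
      rw [ffi_eq, if_neg h1, if_pos h2]
    · refine vg_congr (vg_efi a hq) fun z => ?_
      rw [ffi_eq, if_neg h1, if_neg h2]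

theorem GGX_gd {K : Type} [Field K] [NumberField K] (S : Finset (HeightOneSpectrum (𝓞 K)))
    {T : Finset ℕ} (D : LocData T) (a : ℕ → ℝ) (x : Kˣ) : ∃ g : ℂ → ℂ, Gd g ∧ ∀ s : ℂ,
      GGX S D a x s = (gam1 (2 - s) * (gam1 s)⁻¹) ^ (2 * Module.finrank ℚ K) * g s := by
  classical
  have hA : 0 < D0 S x ^ 2 * cdx D x := mul_pos (pow_pos (D0_pos S x) 2) (cdx_pos D x)
  have h1 : Ep fun s : ℂ => ((D0 S x ^ 2 * cdx D x : ℝ) : ℂ) ^ (1 - s) := by
    refine vg_congr (Ep.cpow hA (-1) 1) fun z => ?_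
    congr 1
    push_cast
    ring
  have h2 : Gd fun s : ℂ => plx D x s * (plx D x (2 - s))⁻¹ :=
    (vg_plx D x).gd.mul (vg_two (vg_plx D x)).gd.inv
  have h3 : Gd fun s : ℂ => ∏ v ∈ S with Away K T v,
      (FF a (nrm v) (tt x v) (2 - s) * (FF a (nrm v) (tt x v) s)⁻¹) := by
    refine Gd.prod _ fun v _ => ?_
    have h4 := vg_ffi a (nrm_ne_zero v) ((tt x v : ℤ) : ℂ)
    refine Gd.mul ?_ h4.gd
    refine ((vg_two h4).gd.inv).congr (b := 0) fun z _ => ?_
    rw [inv_inv]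
  refine ⟨_, (((Ep.const (wx D x)).mul h1).gd.mul h2).mul h3, fun s => ?_⟩
  unfold GGX
  ring

end Pool.Agent.THG
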