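import Pool.Agent.THG.V.EP
import Pool.Agent.QD.In.Def
import Pool.Agent.QD.In.LocF
import Pool.Agent.QD.In.CongD

/-!
# THG/V-GamX: the factor `GamX` is a product of gamma factors and a quotient of exponential polynomials

PLAN.  `GamX S x w = D0^(1/2 - w) * gR w ^ nr x * gC w ^ nc x * ∏ v ∈ S, zf (1 - w) * (zf w)⁻¹` (QD/In/Def).  `D0 S x > 0` (`D0_pos`, QD/In/CongD): `Ep.cpow`.  `zf q t w` (HWR/Defs or QD/KDefs) is the inverse of a polynomial in `q^(-w)`: `Ep` (`q^(-w)` and products), so `zf q t w` and `zf q t (1 - w)` are inverses of `Ep` functions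
(`Ep.aff` with `α = -1`, `β = 1`), `Gd.inv`.  (`q = nrm v > 0`; cast of `q : ℕ` to `ℂ` through `ℝ`.)
-/

namespace Pool.Agent.THG

open NumberField IsDedekindDomain Pool.Agent.HWR Pool.Agent.QD Pool.Agent.QD.In

private theorem gamx_cpow {q : ℕ} (hq : q ≠ 0) (α β : ℝ) :
    Ep fun w => (q : ℂ) ^ (-((α : ℂ) * w + (β : ℂ))) := by
  have h1 : (0 : ℝ) < q := by exact_mod_cast Nat.pos_of_ne_zero hq
  obtain ⟨n, c, μ, h⟩ := Ep.cpow h1 (-α) (-β)
  refine ⟨n, c, μ, fun z => ?_⟩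
  rw [← h z]
  beta_reduce
  rw [Complex.ofReal_natCast]
  congr 1
  push_cast
  ring

private theorem gamx_zf {q : ℕ} (hq : q ≠ 0) (t : ℤ) (α β : ℝ) :
    Gd fun w => zf q t ((α : ℂ) * w + (β : ℂ)) := by
  unfold zf
  exact (((Ep.const 1).sub (gamx_cpow hq α β)).gd.inv).mul
    (((Ep.const 1).sub ((Ep.const (t : ℂ)).mul (gamx_cpow hq α β))).gd.inv)

private theorem gamx_zr {q : ℕ} (hq : q ≠ 0) (t : ℤ) : Gd fun w => zr q t w := by
  have h1 := gamx_zf hq t (-1) 1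
  have h2 := (gamx_zf hq t 1 0).inv
  refine (h1.mul h2).congr (b := 0) fun z _ => ?_
  have e1 : ((-1 : ℝ) : ℂ) * z + ((1 : ℝ) : ℂ) = 1 - z := by
    push_cast
    ring
  have e2 : ((1 : ℝ) : ℂ) * z + ((0 : ℝ) : ℂ) = z := by
    push_cast
    ring
  rw [e1, e2]
  rfl

theorem GamX_gd {K : Type} [Field K] [NumberField K] (S : Finset (HeightOneSpectrum (𝓞 K)))
    (x : Kˣ) : ∃ g : ℂ → ℂ, Gd g ∧ ∀ w : ℂ, GamX S x w = gR w ^ nr x * gC w ^ nc x * g w := by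
  refine ⟨fun w => ((D0 S x : ℝ) : ℂ) ^ (1 / 2 - w) * ∏ v ∈ S, zr (nrm v) (tt x v) w, ?_,
    fun w => ?_⟩
  · refine Gd.mul ?_ (Gd.prod S fun v _ => gamx_zr (nrm_ne_zero v) (tt x v))
    refine (Ep.cpow (D0_pos S x) (-1) (1 / 2)).gd.congr (b := 0) fun z _ => ?_
    congr 1
    push_cast
    ring
  · unfold GamX
    ring

end Pool.Agent.THG
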