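import Pool.Agent.QD.In.CongD
import Pool.Agent.QD.In.CongL
import Pool.Agent.QD.In.CongZ

/-!
# THG/V-LocC: data which only depend on the local square classes at `S` (any signs)

PLAN.  The lemmas `tt_congr` (QD/In/CongZ), `D0_congr` (QD/In/CongD), `sgx_congr`, `cdx_congr`, `plx_congr` (QD/In/CongL) are stated for `x / y ∈ HSub S`, i.e. with a condition at the real places which is not used for these data.  Copy their proofs (and private helpers) with the hypothesis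
`∀ v ∈ S, LSq v (x / y)`; compare THF/T2/GamN.lean, where this is done for `y = 1`.  If at some step the membership in the group `HSub S` is used (e.g. `x ∈ HSub S` and `y` a square gives `y / x`..), use `LSq_mul`, `LSq_div`, `LSq_sq` instead.
-/

namespace Pool.Agent.THG

open NumberField IsDedekindDomain Pool.Agent.HWR Pool.Agent.QD Pool.Agent.QD.In

open scoped TensorProduct

section helpers

variable {K : Type} [Field K] [NumberField K] (S : Finset (HeightOneSpectrum (𝓞 K)))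

private theorem lc_left {S : Finset (HeightOneSpectrum (𝓞 K))} {x y : Kˣ}
    (h : ∀ v ∈ S, LSq v (x / y)) (hy : IsSquare y) : ∀ v ∈ S, LSq v x := by
  intro v hv
  obtain ⟨z, rfl⟩ := hy
  have h2 : x = (x / (z * z)) * z ^ 2 := by
    rw [sq, div_mul_cancel]
  rw [h2]
  exact Pool.Agent.QD.LSq_mul (h v hv) (Pool.Agent.QD.LSq_sq v z)

private theorem lc_symm {S : Finset (HeightOneSpectrum (𝓞 K))} {x y : Kˣ}
    (h : ∀ v ∈ S, LSq v (x / y)) : ∀ v ∈ S, LSq v (y / x) := by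
  intro v hv
  have h1 := Pool.Agent.QD.LSq_inv (h v hv)
  rwa [inv_div] at h1

open Classical in
private noncomputable def lcG (p : HeightOneSpectrum (𝓞 K) → Prop) (x : Kˣ)
    (v : HeightOneSpectrum (𝓞 K)) : ℕ :=
  if p v ∧ Odd (ordK v x) then nrm v else 1

private theorem lcG_pos' {p : HeightOneSpectrum (𝓞 K) → Prop} {x : Kˣ}
    {v : HeightOneSpectrum (𝓞 K)} (h : p v) (h' : Odd (ordK v x)) : lcG p x v = nrm v :=
  if_pos ⟨h, h'⟩

private theorem lcG_neg' {p : HeightOneSpectrum (𝓞 K) → Prop} {x : Kˣ}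
    {v : HeightOneSpectrum (𝓞 K)} (h : ¬ (p v ∧ Odd (ordK v x))) : lcG p x v = 1 :=
  if_neg h

private theorem lcG_no1 (p : HeightOneSpectrum (𝓞 K) → Prop) (x : Kˣ)
    (v : HeightOneSpectrum (𝓞 K)) (h : ¬ p v) : lcG p x v = 1 :=
  lcG_neg' fun h1 => h h1.1

private theorem lcG_no2 (p : HeightOneSpectrum (𝓞 K) → Prop) (x : Kˣ)
    (v : HeightOneSpectrum (𝓞 K)) (h : ¬ Odd (ordK v x)) : lcG p x v = 1 :=
  lcG_neg' fun h1 => h h1.2

private theorem lcG_congr {p q : HeightOneSpectrum (𝓞 K) → Prop} {x y : Kˣ}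
    {v : HeightOneSpectrum (𝓞 K)} (h : (p v ∧ Odd (ordK v x)) ↔ (q v ∧ Odd (ordK v y))) :
    lcG p x v = lcG q y v := by
  by_cases h1 : p v ∧ Odd (ordK v x)
  · rw [lcG_pos' h1.1 h1.2, lcG_pos' (h.1 h1).1 (h.1 h1).2]
  · rw [lcG_neg' h1, lcG_neg' fun h2 => h1 (h.2 h2)]

private theorem lcG_supp (p : HeightOneSpectrum (𝓞 K) → Prop) (x : Kˣ)
    (v : HeightOneSpectrum (𝓞 K)) (h : ordK v x = 0) : lcG p x v = 1 := by
  unfold lcG
  rw [if_neg]
  rintro ⟨_, h1⟩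
  rw [h] at h1
  exact absurd h1 (by decide)

private theorem lcG_fin (p : HeightOneSpectrum (𝓞 K) → Prop) (x : Kˣ) :
    Function.HasFiniteMulSupport (lcG p x) := by
  refine (Pool.Agent.QD.ordK_finite x).subset ?_
  intro v hv h
  exact hv (lcG_supp p x v h)

private theorem lcG_pos (p : HeightOneSpectrum (𝓞 K) → Prop) (x : Kˣ) :
    0 < ∏ᶠ v, lcG p x v := by
  refine finprod_induction (fun n : ℕ => 0 < n) Nat.one_pos (fun _ _ => Nat.mul_pos) fun v => ?_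
  unfold lcG
  split_ifs
  · exact Nat.pos_of_ne_zero (nrm_ne_zero v)
  · exact Nat.one_pos

private theorem lc_odd (x : Kˣ) : oddN S x = ∏ᶠ v, lcG (fun v => v ∉ S) x v := by
  classical
  unfold oddN
  have h1 := finprod_subtype_eq_finprod_cond
    (f := fun v : HeightOneSpectrum (𝓞 K) => if Odd (ordK v x) then nrm v else 1)
    (fun v : HeightOneSpectrum (𝓞 K) => v ∉ S)
  refine h1.trans (finprod_congr fun v => ?_)
  rw [finprod_eq_if]
  unfold lcG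
  by_cases h2 : v ∉ S
  · by_cases h3 : Odd (ordK v x)
    · rw [if_pos h2, if_pos h3, if_pos ⟨h2, h3⟩]
    · rw [if_pos h2, if_neg h3, if_neg fun h => h3 h.2]
  · rw [if_neg h2, if_neg fun h => h2 h.1]

private theorem lc_P2 (x : Kˣ) :
    ∏ᶠ v : {v : HeightOneSpectrum (𝓞 K) // (2 : 𝓞 K) ∉ v.asIdeal ∧ Odd (ordK v x)},
        (nrm v.1 : ℤ) = ((∏ᶠ v, lcG (fun v => (2 : 𝓞 K) ∉ v.asIdeal) x v : ℕ) : ℤ) := by
  classical
  have h1 := finprod_subtype_eq_finprod_cond (f := fun v : HeightOneSpectrum (𝓞 K) => (nrm v : ℤ))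
    (fun v : HeightOneSpectrum (𝓞 K) => (2 : 𝓞 K) ∉ v.asIdeal ∧ Odd (ordK v x))
  have h2 : ((∏ᶠ v, lcG (fun v => (2 : 𝓞 K) ∉ v.asIdeal) x v : ℕ) : ℤ) =
      ∏ᶠ v, ((lcG (fun v => (2 : 𝓞 K) ∉ v.asIdeal) x v : ℕ) : ℤ) :=
    MonoidHom.map_finprod_of_injective (Nat.castRingHom ℤ).toMonoidHom Nat.cast_injective _
  rw [h1, h2]
  refine finprod_congr fun v => ?_
  rw [finprod_eq_if]
  unfold lcG
  by_cases h3 : (2 : 𝓞 K) ∉ v.asIdeal ∧ Odd (ordK v x)
  · rw [if_pos h3, if_pos h3]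
  · rw [if_neg h3, if_neg h3, Nat.cast_one]

private theorem lc_split (h2 : ∀ v : HeightOneSpectrum (𝓞 K), (2 : 𝓞 K) ∈ v.asIdeal → v ∈ S)
    (x : Kˣ) : ∏ᶠ v, lcG (fun v => (2 : 𝓞 K) ∉ v.asIdeal) x v =
      oddN S x * ∏ᶠ v, lcG (fun v => v ∈ S ∧ (2 : 𝓞 K) ∉ v.asIdeal) x v := by
  classical
  rw [lc_odd, ← finprod_mul_distrib (lcG_fin _ x) (lcG_fin _ x)]
  refine finprod_congr fun v => ?_
  by_cases h3 : Odd (ordK v x)
  · by_cases h4 : v ∈ S
    · by_cases h5 : (2 : 𝓞 K) ∈ v.asIdeal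
      · rw [lcG_no1 (fun v => (2 : 𝓞 K) ∉ v.asIdeal) x v fun h => h h5,
          lcG_no1 (fun v => v ∉ S) x v fun h => h h4,
          lcG_no1 (fun v => v ∈ S ∧ (2 : 𝓞 K) ∉ v.asIdeal) x v fun h => h.2 h5, one_mul]
      · rw [lcG_pos' (p := fun v => (2 : 𝓞 K) ∉ v.asIdeal) h5 h3,
          lcG_no1 (fun v => v ∉ S) x v fun h => h h4,
          lcG_pos' (p := fun v => v ∈ S ∧ (2 : 𝓞 K) ∉ v.asIdeal) ⟨h4, h5⟩ h3, one_mul]
    · have h5 : (2 : 𝓞 K) ∉ v.asIdeal := fun h => h4 (h2 v h)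
      rw [lcG_pos' (p := fun v => (2 : 𝓞 K) ∉ v.asIdeal) h5 h3,
        lcG_pos' (p := fun v => v ∉ S) h4 h3,
        lcG_no1 (fun v => v ∈ S ∧ (2 : 𝓞 K) ∉ v.asIdeal) x v fun h => h4 h.1, mul_one]
  · rw [lcG_no2 _ x v h3, lcG_no2 _ x v h3, lcG_no2 _ x v h3, one_mul]

private theorem lc_S_congr {x y : Kˣ} (h : ∀ v ∈ S, LSq v (x / y)) :
    ∏ᶠ v, lcG (fun v => v ∈ S ∧ (2 : 𝓞 K) ∉ v.asIdeal) x v =
      ∏ᶠ v, lcG (fun v => v ∈ S ∧ (2 : 𝓞 K) ∉ v.asIdeal) y v := by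
  refine finprod_congr fun v => ?_
  by_cases h4 : v ∈ S
  · have h5 := even_of_LSq (h v h4)
    rw [ordK_div] at h5
    have h6 : Odd (ordK v x) ↔ Odd (ordK v y) := by
      rw [← Int.not_even_iff_odd, ← Int.not_even_iff_odd, Int.even_sub.1 h5]
    exact lcG_congr (and_congr_right fun _ => h6)
  · rw [lcG_neg' fun h => h4 h.1.1, lcG_neg' fun h => h4 h.1.1]

private theorem lc_sq {p : HeightOneSpectrum (𝓞 K) → Prop} {x : Kˣ}
    (h : ∀ v, p v → Even (ordK v x)) : ∏ᶠ v, lcG p x v = 1 := by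
  refine finprod_eq_one_of_forall_eq_one fun v => ?_
  unfold lcG
  rw [if_neg]
  rintro ⟨h1, h2⟩
  exact (Int.not_even_iff_odd.2 h2) (h v h1)

private theorem lc_even_sq {x : Kˣ} (h : IsSquare x) (v : HeightOneSpectrum (𝓞 K)) :
    Even (ordK v x) := by
  obtain ⟨y, rfl⟩ := h
  rw [Pool.Agent.QD.ordK_mul]
  exact ⟨_, rfl⟩

private theorem lc_one (h2 : ∀ v : HeightOneSpectrum (𝓞 K), (2 : 𝓞 K) ∈ v.asIdeal → v ∈ S)
    {x : Kˣ} (h : ∀ v ∈ S, LSq v x) : dd x = (NumberField.discr K : ℝ) ^ 2 * oddN S x := by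
  unfold dd
  split_ifs with hx
  · have h1 : oddN S x = 1 := by
      rw [lc_odd]
      exact lc_sq fun v _ => lc_even_sq hx v
    rw [h1, Nat.cast_one, mul_one]
  · have h3 := N4.disc_one' (qf hx).L (qf hx).deg x (qf hx).θ (qf hx).sq hx
      fun v hv => h v (h2 v hv)
    have h4 : ∏ᶠ v, lcG (fun v => v ∈ S ∧ (2 : 𝓞 K) ∉ v.asIdeal) x v = 1 :=
      lc_sq fun v hv => even_of_LSq (h v hv.1)
    rw [lc_P2, lc_split S h2 x, h4, mul_one] at h3
    have h5 := congrArg (fun n : ℤ => (n : ℝ)) h3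
    push_cast at h5
    rw [sq_abs] at h5
    exact h5

private theorem lc_key (h2 : ∀ v : HeightOneSpectrum (𝓞 K), (2 : 𝓞 K) ∈ v.asIdeal → v ∈ S)
    {x y : Kˣ} (h : ∀ v ∈ S, LSq v (x / y)) : dd x * oddN S y = dd y * oddN S x := by
  by_cases hx : IsSquare x
  · have hy' := lc_left (lc_symm h) hx
    have hx' := lc_left (S := S) (x := x) (y := x) (fun v _ => by
      rw [div_self']
      have := Pool.Agent.QD.LSq_sq v (1 : Kˣ)
      rwa [one_pow] at this) hx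
    rw [lc_one S h2 hx', lc_one S h2 hy']
    ring
  · by_cases hy : IsSquare y
    · have hx' := lc_left h hy
      have hy' := lc_left (S := S) (x := y) (y := y) (fun v _ => by
        rw [div_self']
        have := Pool.Agent.QD.LSq_sq v (1 : Kˣ)
        rwa [one_pow] at this) hy
      rw [lc_one S h2 hx', lc_one S h2 hy']
      ring
    · have h3 := N4.disc_congr' (qf hx).L (qf hx).deg x (qf hx).θ (qf hx).sq hx
        (qf hy).L (qf hy).deg y (qf hy).θ (qf hy).sq hy fun v hv => h v (h2 v hv)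
      rw [lc_P2, lc_P2, lc_split S h2 x, lc_split S h2 y, lc_S_congr S h] at h3
      have h6 := lcG_pos (fun v => v ∈ S ∧ (2 : 𝓞 K) ∉ v.asIdeal) y
      revert h3 h6
      generalize (∏ᶠ v, lcG (fun v => v ∈ S ∧ (2 : 𝓞 K) ∉ v.asIdeal) y v : ℕ) = P
      intro h3 h6
      have h5 := congrArg (fun n : ℤ => (n : ℝ)) h3
      push_cast at h5
      have h6 : (0 : ℝ) < (P : ℝ) := by
        exact_mod_cast h6
      unfold dd
      rw [dif_neg hx, dif_neg hy]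
      refine mul_right_cancel₀ (ne_of_gt h6) ?_
      rw [mul_assoc, mul_assoc]
      exact h5

open Classical in
/-- product over the primes of `T` of a function of `ℚ_p ⊗ F` -/
private noncomputable def lcpr {α : Type} [CommMonoid α] (T : Finset ℕ)
    (f : ∀ (p : ℕ) [Fact p.Prime] (R : Type) [CommRing R] [Algebra ℚ_[p] R], α)
    (F : Type) [Field F] [NumberField F] : α :=
  ∏ p ∈ T, if h : p.Prime then haveI := Fact.mk h; f p (ℚ_[p] ⊗[ℚ] F) else 1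

private theorem lcpr_sq {T : Finset ℕ} {α : Type} [CommMonoid α]
    (f : ∀ (p : ℕ) [Fact p.Prime] (R : Type) [CommRing R] [Algebra ℚ_[p] R], α)
    (hiso : ∀ (p : ℕ) [Fact p.Prime] (R R' : Type) [CommRing R] [Algebra ℚ_[p] R]
      [CommRing R'] [Algebra ℚ_[p] R'] [Module.Finite ℚ_[p] R] [Module.Finite ℚ_[p] R'],
      Nonempty (R ≃ₐ[ℚ_[p]] R') → f p R = f p R')
    (hprod : ∀ (p : ℕ) [Fact p.Prime] (R R' : Type) [CommRing R] [Algebra ℚ_[p] R]
      [CommRing R'] [Algebra ℚ_[p] R'] [Module.Finite ℚ_[p] R] [Module.Finite ℚ_[p] R'],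
      f p (R × R') = f p R * f p R')
    {S : Finset (HeightOneSpectrum (𝓞 K))} (hST : ∀ v, ¬ Away K T v → v ∈ S) {x : Kˣ}
    (hx : ∀ v ∈ S, LSq v x) (Q : QF K x) (hns : ¬ IsSquare x) :
    lcpr T f Q.L = lcpr T f K ^ 2 := by
  unfold lcpr
  rw [← Finset.prod_pow]
  apply Finset.prod_congr rfl
  intro p hp
  by_cases hpr : p.Prime
  · haveI := Fact.mk hpr
    rw [dif_pos hpr, dif_pos hpr]
    have h1 : Nonempty ((ℚ_[p] ⊗[ℚ] Q.L) ≃ₐ[ℚ_[p]] ((ℚ_[p] ⊗[ℚ] K) × (ℚ_[p] ⊗[ℚ] K))) := by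
      obtain ⟨ρ, hρ⟩ := N4.exists_sqrt p x fun v hv => hx v (hST v fun h => h p hp hv)
      exact N4.iso_prod ℚ_[p] Q.L Q.deg x Q.θ Q.sq hns ρ hρ
    rw [hiso p _ _ h1, hprod, pow_two]
  · rw [dif_neg hpr, dif_neg hpr, one_pow]

private theorem lcpr_congr {T : Finset ℕ} {α : Type} [CommMonoid α]
    (f : ∀ (p : ℕ) [Fact p.Prime] (R : Type) [CommRing R] [Algebra ℚ_[p] R], α)
    (hiso : ∀ (p : ℕ) [Fact p.Prime] (R R' : Type) [CommRing R] [Algebra ℚ_[p] R]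
      [CommRing R'] [Algebra ℚ_[p] R'] [Module.Finite ℚ_[p] R] [Module.Finite ℚ_[p] R'],
      Nonempty (R ≃ₐ[ℚ_[p]] R') → f p R = f p R')
    {S : Finset (HeightOneSpectrum (𝓞 K))} (hST : ∀ v, ¬ Away K T v → v ∈ S) {x y : Kˣ}
    (h : ∀ v ∈ S, LSq v (x / y)) (Q : QF K x) (hns : ¬ IsSquare x) (Q' : QF K y)
    (hns' : ¬ IsSquare y) : lcpr T f Q.L = lcpr T f Q'.L := by
  unfold lcpr
  apply Finset.prod_congr rfl
  intro p hp
  by_cases hpr : p.Prime
  · haveI := Fact.mk hpr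
    rw [dif_pos hpr, dif_pos hpr]
    have h1 : Nonempty ((ℚ_[p] ⊗[ℚ] Q.L) ≃ₐ[ℚ_[p]] (ℚ_[p] ⊗[ℚ] Q'.L)) := by
      obtain ⟨ρ, hρ⟩ := N4.exists_sqrt p (x / y) fun v hv => h v (hST v fun h => h p hp hv)
      exact N4.iso_congr ℚ_[p] Q.L Q.deg x Q.θ Q.sq hns Q'.L Q'.deg y Q'.θ Q'.sq hns' ρ hρ
    exact hiso p _ _ h1
  · rw [dif_neg hpr, dif_neg hpr]

open Classical in
private theorem lcmain {T : Finset ℕ} {α : Type} [CommMonoid α]
    (f : ∀ (p : ℕ) [Fact p.Prime] (R : Type) [CommRing R] [Algebra ℚ_[p] R], α)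
    (hiso : ∀ (p : ℕ) [Fact p.Prime] (R R' : Type) [CommRing R] [Algebra ℚ_[p] R]
      [CommRing R'] [Algebra ℚ_[p] R'] [Module.Finite ℚ_[p] R] [Module.Finite ℚ_[p] R'],
      Nonempty (R ≃ₐ[ℚ_[p]] R') → f p R = f p R')
    (hprod : ∀ (p : ℕ) [Fact p.Prime] (R R' : Type) [CommRing R] [Algebra ℚ_[p] R]
      [CommRing R'] [Algebra ℚ_[p] R'] [Module.Finite ℚ_[p] R] [Module.Finite ℚ_[p] R'],
      f p (R × R') = f p R * f p R')
    {S : Finset (HeightOneSpectrum (𝓞 K))} (hST : ∀ v, ¬ Away K T v → v ∈ S) {x y : Kˣ}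
    (h : ∀ v ∈ S, LSq v (x / y)) :
    (if h : IsSquare x then lcpr T f K ^ 2 else lcpr T f (qf h).L) =
      if h : IsSquare y then lcpr T f K ^ 2 else lcpr T f (qf h).L := by
  by_cases hx : IsSquare x
  · rw [dif_pos hx]
    by_cases hy : IsSquare y
    · rw [dif_pos hy]
    · rw [dif_neg hy]
      exact (lcpr_sq f hiso hprod hST (lc_left (lc_symm h) hx) (qf hy) hy).symm
  · rw [dif_neg hx]
    by_cases hy : IsSquare y
    · rw [dif_pos hy]
      exact lcpr_sq f hiso hprod hST (lc_left h hy) (qf hx) hx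
    · rw [dif_neg hy]
      exact lcpr_congr f hiso hST h (qf hx) hx (qf hy) hy

end helpers

variable {K : Type} [Field K] [NumberField K] {S : Finset (HeightOneSpectrum (𝓞 K))} {x y : Kˣ}
  (h : ∀ v ∈ S, LSq v (x / y))

include h

theorem tt_loc (v : HeightOneSpectrum (𝓞 K)) (hv : v ∈ S) : tt x v = tt y v := by
  unfold tt
  by_cases hx : IsSquare x
  · by_cases hy : IsSquare y
    · rw [dif_pos hx, dif_pos hy]
    · rw [dif_pos hx, dif_neg hy]
      exact (N4.ty_one' (qf hy).L (qf hy).deg y (qf hy).θ (qf hy).sq hy v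
        (lc_left (lc_symm h) hx v hv)).symm
  · by_cases hy : IsSquare y
    · rw [dif_neg hx, dif_pos hy]
      exact N4.ty_one' (qf hx).L (qf hx).deg x (qf hx).θ (qf hx).sq hx v (lc_left h hy v hv)
    · rw [dif_neg hx, dif_neg hy]
      exact N4.ty_congr' (qf hx).L (qf hx).deg x (qf hx).θ (qf hx).sq hx (qf hy).L (qf hy).deg y
        (qf hy).θ (qf hy).sq hy v (h v hv)

theorem D0_loc (h2 : ∀ v : HeightOneSpectrum (𝓞 K), (2 : 𝓞 K) ∈ v.asIdeal → v ∈ S) :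
    D0 S x = D0 S y := by
  have h1 := lc_key S h2 h
  have hx : (0 : ℝ) < oddN S x := by exact_mod_cast oddN_pos S x
  have hy : (0 : ℝ) < oddN S y := by exact_mod_cast oddN_pos S y
  unfold D0
  rw [div_eq_div_iff (ne_of_gt hx) (ne_of_gt hy)]
  exact h1

variable {T : Finset ℕ} (D : LocData T) (hST : ∀ v : HeightOneSpectrum (𝓞 K), ¬ Away K T v → v ∈ S)

include hST

theorem sgx_loc : sgx D x = sgx D y :=
  lcmain D.sgn D.sgn_iso D.sgn_prod hST h

theorem cdx_loc : cdx D x = cdx D y :=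
  lcmain D.cond D.cond_iso D.cond_prod hST h

theorem plx_loc : plx D x = plx D y := by
  funext s
  refine lcmain (fun p _ R _ _ => (D.pol p R).eval ((p : ℂ) ^ (-s))) ?_ ?_ hST h
  · intro p _ R R' _ _ _ _ _ _ h1
    rw [D.pol_iso p R R' h1]
  · intro p _ R R' _ _ _ _ _ _
    rw [D.pol_prod, Polynomial.eval_mul]

end Pool.Agent.THG
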