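import Pool.Agent.THG.V.Tr
import Pool.Agent.THG.V.GamX
import Pool.Agent.THG.V.GGX
import Pool.Agent.THG.A.Chain

/-!
# THG/V-Sum: the sum over the classes

PLAN.  `M c w = ∑ g, B c g * Gam g w` (QD/A/Defs), so `Th S s = GG 1 s * ∑ g, Gam g (2 s - 1) * ∑ c, B c g * GG c (s + 1/2)` (exchange the sums).  The terms `g` with `B n g ≠ chp e n` for some `n ∈ NN S` are `0` (`sum_zero`).  For the others `neg_iff`: `negs (out g) = kk e`, so `nr (out g) = 2 (r1 - kk e)`,
`nc (out g) = 2 r2 + kk e` (`nr_eq`, `nr_nc`, QD/In/CongZ; `negs`): `Gam g w = gR w ^ (2 (r1 - k)) * gC w ^ (2 r2 + k) * γ_g w` (`GamX_gd`), `GG c s = ± (gam1 (2 - s) * (gam1 s)⁻¹)^(2n) * h_c s` (`GGX_gd`), `2 - (s + 1/2) = 3/2 - s`.  `Q s` = the remaining finite sum of products of `γ_g (2 s - 1)` (`Gd.aff` with `α = 2`,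
`β = -1`), `h_c (s + 1/2)` (`Gd.aff` with `α = 1`, `β = 1/2`), `h_1 s` and constants: `Gd.sum`, `Gd.mul`.
-/

namespace Pool.Agent.THG

open NumberField IsDedekindDomain Pool.Agent.HWR Pool.Agent.QD Pool.Agent.QD.In Pool.Agent.LD
  Pool.Agent.MD Pool.Agent.THF

/-- the number of real embeddings with sign `1` -/
noncomputable def kk {K : Type} [Field K] [NumberField K] (e : (K →+* ℝ) → ℤ) : ℕ :=
  Nat.card {φ : K →+* ℝ // e φ = 1}

private theorem Sum_card {K : Type} [Field K] [NumberField K] {e : (K →+* ℝ) → ℤ} (x : Kˣ)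
    (hx : ∀ φ : K →+* ℝ, φ (x : K) < 0 ↔ e φ = 1) :
    nr x = 2 * (InfinitePlace.nrRealPlaces K - kk e) ∧
      nc x = 2 * InfinitePlace.nrComplexPlaces K + kk e := by
  have : Finite (K →+* ℝ) := by
    have h1 : Function.Injective (fun φ : K →+* ℝ => (Complex.ofRealHom.comp φ : K →+* ℂ)) := by
      intro φ ψ h
      ext a
      exact Complex.ofReal_injective (RingHom.congr_fun h a)
    exact Finite.of_injective _ h1
  have hc : Nat.card {φ : K →+* ℝ // 0 < φ (x : K)} + kk e = InfinitePlace.nrRealPlaces K := by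
    classical
    unfold kk
    have h0 : ∀ φ : K →+* ℝ, e φ = 1 ↔ ¬ 0 < φ (x : K) := by
      intro φ
      rw [← hx φ]
      have h2 : φ (x : K) ≠ 0 := (map_ne_zero φ).2 x.ne_zero
      constructor
      · intro h
        exact not_lt.2 h.le
      · intro h
        exact lt_of_le_of_ne (not_lt.1 h) h2
    rw [N4.card_real, Nat.card_congr (Equiv.subtypeEquivRight h0), ← Nat.card_sum]
    exact Nat.card_congr (Equiv.sumCompl fun φ : K →+* ℝ => 0 < φ (x : K))
  have h1 := nr_eq x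
  have h2 := nr_nc x
  have h3 := InfinitePlace.card_add_two_mul_card_eq_rank K
  constructor <;> omega

theorem Th_eval {K : Type} [Field K] [NumberField K] {S : Finset (HeightOneSpectrum (𝓞 K))}
    {T : Finset ℕ} (D : LocData T) {a : ℕ → ℝ} {e : (K →+* ℝ) → ℤ} {T1 : Finset ℕ}
    (hS : Nic T1 S) (hST : ∀ v, ¬ Away K T v → v ∈ S)
    (hT : ∀ p : ℕ, p.Prime → p < 101 → p ∈ T) (ha : ∀ q : ℕ, |a q| ≤ 2 * Real.sqrt q)
    (ha2 : SqRel K T a) (he : ∀ φ, e φ = 1 ∨ e φ = -1) :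
    ∃ Q : ℂ → ℂ, Gd Q ∧ ∀ s : ℂ, Th (sysE S D a e) s =
      gR (2 * s - 1) ^ (2 * (InfinitePlace.nrRealPlaces K - kk e)) *
        gC (2 * s - 1) ^ (2 * InfinitePlace.nrComplexPlaces K + kk e) *
        ((gam1 (2 - s) * (gam1 s)⁻¹) ^ (2 * Module.finrank ℚ K) *
          (gam1 (3 / 2 - s) * (gam1 (s + 1 / 2))⁻¹) ^ (2 * Module.finrank ℚ K)) * Q s := by
  classical
  choose γ hγ1 hγ2 using fun g : GS S => GamX_gd S (Quotient.out g : Kˣ)
  choose h hh1 hh2 using fun g : GS S => GGX_gd S D a (Quotient.out g : Kˣ)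
  obtain ⟨c1, hc1⟩ : ∃ c1 : (sysE S D a e).G → (sysE S D a e).G → ℂ,
      ∀ c g, c1 c g = (sysE S D a e).B c g * (chi e (Quotient.out (c : GS S)) : ℂ) :=
    ⟨_, fun _ _ => rfl⟩
  -- the inner sums
  have hin : ∀ (g : (sysE S D a e).G) (z : ℂ),
      ∑ c : (sysE S D a e).G, (sysE S D a e).B c g * (sysE S D a e).GG c z =
      (gam1 (2 - z) * (gam1 z)⁻¹) ^ (2 * Module.finrank ℚ K) *
        ∑ c : (sysE S D a e).G, c1 c g * h c z := by
    intro g z
    rw [Finset.mul_sum]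
    refine Finset.sum_congr rfl fun c _ => ?_
    have h1 : (sysE S D a e).GG c z =
        (chi e (Quotient.out (c : GS S)) : ℂ) * GGX S D a (Quotient.out (c : GS S)) z := rfl
    rw [h1, hh2 c z, hc1]
    ring
  obtain ⟨gd, hgd⟩ : ∃ gd : (sysE S D a e).G → Prop,
      ∀ g, gd g ↔ ∀ n ∈ NN S, (sysE S D a e).B n g = chp e n := ⟨_, fun _ => Iff.rfl⟩
  refine ⟨fun s => (chi e (Quotient.out (1 : GS S)) : ℂ) * h 1 s *
    ∑ g : (sysE S D a e).G, (if gd g then (1 : ℂ) else 0) * (γ g (2 * s - 1) *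
      ∑ c : (sysE S D a e).G, c1 c g * h c (s + 1 / 2)), ?_, ?_⟩
  · refine (((Ep.const _).gd.mul (hh1 1)).mul (Gd.sum Finset.univ fun g _ =>
      ((Ep.const _).gd.mul (Gd.mul ?_ (Gd.sum Finset.univ fun c _ =>
        ((Ep.const (c1 c g)).gd.mul ?_))))))
    · refine ((hγ1 g).aff (α := 2) (by norm_num) (-1)).congr (b := 0) fun z _ => ?_
      congr 1
      push_cast
      ring
    · refine ((hh1 c).aff (α := 1) (by norm_num) (1 / 2)).congr (b := 0) fun z _ => ?_
      congr 1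
      push_cast
      ring
  · intro s
    have h1 : Th (sysE S D a e) s = (sysE S D a e).GG 1 s *
        ∑ g : (sysE S D a e).G, (sysE S D a e).Gam g (2 * s - 1) *
          ∑ c : (sysE S D a e).G, (sysE S D a e).B c g * (sysE S D a e).GG c (s + 1 / 2) := by
      unfold Th
      congr 1
      have h2 : ∀ c : (sysE S D a e).G, (sysE S D a e).M c (2 * s - 1) =
          ∑ g : (sysE S D a e).G, (sysE S D a e).B c g * (sysE S D a e).Gam g (2 * s - 1) :=
        fun _ => rfl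
      rw [Finset.sum_congr rfl fun c _ => by rw [h2 c, Finset.sum_mul]]
      rw [Finset.sum_comm]
      refine Finset.sum_congr rfl fun g _ => ?_
      rw [Finset.mul_sum]
      refine Finset.sum_congr rfl fun c _ => ?_
      ring
    have h3 : ∀ g : (sysE S D a e).G, (sysE S D a e).Gam g (2 * s - 1) *
          ∑ c : (sysE S D a e).G, (sysE S D a e).B c g * (sysE S D a e).GG c (s + 1 / 2) =
        gR (2 * s - 1) ^ (2 * (InfinitePlace.nrRealPlaces K - kk e)) *
          gC (2 * s - 1) ^ (2 * InfinitePlace.nrComplexPlaces K + kk e) *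
          (gam1 (3 / 2 - s) * (gam1 (s + 1 / 2))⁻¹) ^ (2 * Module.finrank ℚ K) *
          ((if gd g then (1 : ℂ) else 0) * (γ g (2 * s - 1) *
            ∑ c : (sysE S D a e).G, c1 c g * h c (s + 1 / 2))) := by
      intro g
      by_cases hg : gd g
      · rw [if_pos hg, one_mul, hin g (s + 1 / 2)]
        have h4 : (sysE S D a e).Gam g (2 * s - 1) =
            GamX S (Quotient.out (g : GS S)) (2 * s - 1) := rfl
        obtain ⟨h5, h6⟩ := Sum_card (e := e) (Quotient.out (g : GS S))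
          (fun φ => neg_iff D hS he g ((hgd g).1 hg) φ)
        have h7 : (2 : ℂ) - (s + 1 / 2) = 3 / 2 - s := by ring
        rw [h4, hγ2 g, h5, h6, h7]
        ring
      · rw [if_neg hg, zero_mul, mul_zero]
        have h4 : ¬ ∀ n ∈ NN S, (sysE S D a e).B n g = chp e n := fun h5 => hg ((hgd g).2 h5)
        obtain ⟨n, h6⟩ := not_forall.1 h4
        obtain ⟨hn, h5⟩ := Classical.not_imp.1 h6
        rw [sum_zero D hS hST hT ha ha2 he n g hn h5, mul_zero]
    have h8 : (sysE S D a e).GG 1 s =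
        (chi e (Quotient.out (1 : GS S)) : ℂ) * GGX S D a (Quotient.out (1 : GS S)) s := rfl
    rw [h1, Finset.sum_congr rfl fun g _ => h3 g, ← Finset.mul_sum, h8, hh2 1 s]
    ring

end Pool.Agent.THG
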