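import Pool.Agent.THG.V.TrN

/-!
# THG/V-Tr: the sums over the classes which vanish

PLAN.  With `H = ∑ c, B c g * GG c s`, translation by `n` (bijection `c ↦ n * c`: `Fintype.sum_equiv (Equiv.mulLeft n)`) gives `H = B n g * chp e n * H` (`B_mul` of `isSys0E`, `GG_tr`); both numbers are `± 1` (`chi_sq`; `B` is `± 1`: `Bc`, `BS`, see `isSys0E` / LD/I/Sys0 or `B_mul` with squares), so if `B n g ≠ chp e n` the factor is `-1` and `H = 0`.
-/

namespace Pool.Agent.THG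

open NumberField IsDedekindDomain Pool.Agent.HWR Pool.Agent.QD Pool.Agent.QD.In Pool.Agent.LD
  Pool.Agent.MD Pool.Agent.THF

variable {K : Type} [Field K] [NumberField K] {S : Finset (HeightOneSpectrum (𝓞 K))}
  {T : Finset ℕ} (D : LocData T) {a : ℕ → ℝ} {e : (K →+* ℝ) → ℤ} {T1 : Finset ℕ}

private theorem chp_sq (he : ∀ φ, e φ = 1 ∨ e φ = -1) (n : GS S) :
    chp e n = 1 ∨ chp e n = -1 := by
  unfold chp
  rcases chi_sq he (Quotient.out n) with h | h <;>
    rcases neg_one_pow_eq_or ℂ (negs (Quotient.out n)) with h2 | h2 <;> rw [h, h2] <;> norm_num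

private theorem aux (Sy : SysD) (h0 : IsSys0 Sy) (n g : Sy.G) (x s : ℂ) (hx : x = 1 ∨ x = -1)
    (htr : ∀ c, Sy.GG (n * c) s = x * Sy.GG c s) (h : Sy.B n g ≠ x) :
    ∑ c : Sy.G, Sy.B c g * Sy.GG c s = 0 := by
  have h1 : ∑ c : Sy.G, Sy.B c g * Sy.GG c s =
      (Sy.B n g * x) * ∑ c : Sy.G, Sy.B c g * Sy.GG c s := by
    rw [Finset.mul_sum]
    refine (Fintype.sum_equiv (Equiv.mulLeft n) _ _ fun c => ?_).symm
    rw [Equiv.coe_mulLeft, h0.B_mul, htr]
    ring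
  have h2 : Sy.B n g * x = -1 := by
    rcases h0.B_sq n g with h3 | h3 <;> rcases hx with h4 | h4
    · exact absurd (h3.trans h4.symm) h
    · rw [h3, h4]; ring
    · rw [h3, h4]; ring
    · exact absurd (h3.trans h4.symm) h
  rw [h2] at h1
  generalize ∑ c : Sy.G, Sy.B c g * Sy.GG c s = H at h1 ⊢
  have h3 : 2 * H = 0 := by linear_combination h1
  rcases mul_eq_zero.1 h3 with h4 | h4
  · norm_num at h4
  · exact h4

theorem sum_zero (hS : Nic T1 S) (hST : ∀ v, ¬ Away K T v → v ∈ S)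
    (hT : ∀ p : ℕ, p.Prime → p < 101 → p ∈ T) (ha : ∀ q : ℕ, |a q| ≤ 2 * Real.sqrt q)
    (ha2 : SqRel K T a) (he : ∀ φ, e φ = 1 ∨ e φ = -1) (n g : GS S) (hn : n ∈ NN S)
    (h : (sysE S D a e).B n g ≠ chp e n) (s : ℂ) :
    ∑ c : (sysE S D a e).G, (sysE S D a e).B c g * (sysE S D a e).GG c s = 0 :=
  aux (sysE S D a e) (isSys0E D hS hST hT (e := e) ha ha2) n g (chp e n) s (chp_sq he n)
    (fun c => GG_tr D hS hST hT he n c hn s) h

end Pool.Agent.THG
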