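import Pool.Agent.THG.V.LocC
import Pool.Agent.THG.G.SysD
import Pool.Agent.QD.In.GGX
import Pool.Agent.THF.T2.GamN

/-!
# THG/V-TrA: the factor `GG` under translation by the classes which are local squares at `S`

`NN S` = the classes of the local squares at `S`, `chp e n = chi e (out n) * (-1)^(negs (out n))`.
`chi` and the sign of the root number are multiplicative up to the parity of `negs`; all other data in `GGX` only depend on
the local square classes at `S` (THG/V-LocC).
-/

namespace Pool.Agent.THG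

open NumberField IsDedekindDomain Pool.Agent.HWR Pool.Agent.QD Pool.Agent.QD.In Pool.Agent.LD
  Pool.Agent.MD Pool.Agent.THF

variable {K : Type} [Field K] [NumberField K] {S : Finset (HeightOneSpectrum (𝓞 K))}
  {T : Finset ℕ} (D : LocData T) {a : ℕ → ℝ} {e : (K →+* ℝ) → ℤ} {T1 : Finset ℕ}

/-- the classes of the local squares at `S` -/
def NN (S : Finset (HeightOneSpectrum (𝓞 K))) : Set (GS S) :=
  {n | ∀ v ∈ S, LSq v (Quotient.out n)}

/-- the character -/
noncomputable def chp (e : (K →+* ℝ) → ℤ) (n : GS S) : ℂ :=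
  (chi e (Quotient.out n) : ℂ) * (-1) ^ negs (Quotient.out n)

private theorem TrA_fin : Finite (K →+* ℝ) := by
  have h1 : Function.Injective (fun φ : K →+* ℝ => (Complex.ofRealHom.comp φ : K →+* ℂ)) := by
    intro φ ψ h
    ext a
    exact Complex.ofReal_injective (RingHom.congr_fun h a)
  exact Finite.of_injective _ h1

private theorem TrA_chi (x : Kˣ) : chi (fun _ : K →+* ℝ => (-1 : ℤ)) x = (-1) ^ negs x := by
  classical
  have hfin : Finite (K →+* ℝ) := TrA_fin
  have : Fintype (K →+* ℝ) := Fintype.ofFinite _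
  unfold chi negs
  rw [finprod_eq_prod_of_fintype, Finset.prod_ite, Finset.prod_const, Finset.prod_const_one, mul_one,
    Nat.card_eq_fintype_card, Fintype.card_subtype]

private theorem TrA_negs (x y : Kˣ) : ((-1 : ℤ)) ^ negs (x * y) = (-1) ^ negs x * (-1) ^ negs y := by
  rw [← TrA_chi, ← TrA_chi, ← TrA_chi]
  exact chi_mul (fun _ => Or.inr rfl) x y

private theorem TrA_card (u : Kˣ) : Nat.card {φ : K →+* ℝ // 0 < φ (u : K)} + negs u =
    Nat.card (K →+* ℝ) := by
  classical
  have : Finite (K →+* ℝ) := TrA_fin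
  unfold negs
  have h0 : ∀ φ : K →+* ℝ, φ (u : K) < 0 ↔ ¬ 0 < φ (u : K) := by
    intro φ
    have h2 : φ (u : K) ≠ 0 := (map_ne_zero φ).2 u.ne_zero
    constructor
    · intro h
      exact not_lt.2 h.le
    · intro h
      exact lt_of_le_of_ne (not_lt.1 h) h2
  rw [Nat.card_congr (Equiv.subtypeEquivRight h0), ← Nat.card_sum]
  exact Nat.card_congr (Equiv.sumCompl fun φ : K →+* ℝ => 0 < φ (u : K))

private theorem TrA_sgn (x : Kˣ) : ((-1 : ℤ)) ^ (nr x + nc x) =
    (-1) ^ (Module.finrank ℚ K + Nat.card (K →+* ℝ)) * (-1) ^ negs x := by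
  have h1 := nr_eq x
  have h2 := nr_nc x
  have h3 := TrA_card x
  have h4 : Module.finrank ℚ K + Nat.card (K →+* ℝ) + negs x = nr x + nc x + 2 * negs x := by
    omega
  rw [← pow_add, h4, pow_add _ (nr x + nc x), pow_mul, neg_one_sq, one_pow, mul_one]

private theorem TrA_wx (hST : ∀ v, ¬ Away K T v → v ∈ S) {u c : Kˣ} (hu : ∀ v ∈ S, LSq v u) :
    wx D (u * c) = (-1) ^ negs u * wx D c := by
  have h1 : ∀ v ∈ S, LSq v (u * c / c) := by
    intro v hv
    rw [mul_div_cancel_right]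
    exact hu v hv
  have h2 : ((-1 : ℤ)) ^ (nr (u * c) + nc (u * c)) = (-1) ^ negs u * (-1) ^ (nr c + nc c) := by
    rw [TrA_sgn, TrA_sgn, TrA_negs]
    ring
  have h3 : ((-1 : ℂ)) ^ (nr (u * c) + nc (u * c)) = (-1) ^ negs u * (-1) ^ (nr c + nc c) := by
    exact_mod_cast h2
  unfold wx
  rw [sgx_loc h1 D hST, h3, mul_assoc]

private theorem TrA_GGX (h2 : ∀ v : HeightOneSpectrum (𝓞 K), (2 : 𝓞 K) ∈ v.asIdeal → v ∈ S)
    (hST : ∀ v, ¬ Away K T v → v ∈ S) {u c : Kˣ} (hu : ∀ v ∈ S, LSq v u) (s : ℂ) :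
    GGX S D a (u * c) s = (-1) ^ negs u * GGX S D a c s := by
  classical
  have h1 : ∀ v ∈ S, LSq v (u * c / c) := by
    intro v hv
    rw [mul_div_cancel_right]
    exact hu v hv
  have h3 : ∏ v ∈ S with Away K T v, (FF a (nrm v) (tt (u * c) v) (2 - s) *
      (FF a (nrm v) (tt (u * c) v) s)⁻¹) = ∏ v ∈ S with Away K T v,
      (FF a (nrm v) (tt c v) (2 - s) * (FF a (nrm v) (tt c v) s)⁻¹) := by
    refine Finset.prod_congr rfl fun v hv => ?_
    rw [tt_loc h1 v (Finset.mem_filter.1 hv).1]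
  unfold GGX
  rw [TrA_wx D hST hu, cdx_loc h1 D hST, plx_loc h1 D hST, D0_loc h1 h2, h3]
  ring

theorem GG_tr (hS : Nic T1 S) (hST : ∀ v, ¬ Away K T v → v ∈ S)
    (hT : ∀ p : ℕ, p.Prime → p < 101 → p ∈ T) (he : ∀ φ, e φ = 1 ∨ e φ = -1) (n c : GS S)
    (hn : n ∈ NN S) (s : ℂ) : (sysE S D a e).GG (n * c) s = chp e n * (sysE S D a e).GG c s := by
  classical
  have h2 : ∀ v : HeightOneSpectrum (𝓞 K), (2 : 𝓞 K) ∈ v.asIdeal → v ∈ S := by
    intro v hv
    by_contra h
    exact nic_two hS v h hv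
  have h1 : Quotient.out (n * c) / (Quotient.out n * Quotient.out c) ∈ QD.HSub S := by
    have h3 : (QuotientGroup.mk (Quotient.out n * Quotient.out c) : GS S) =
        QuotientGroup.mk (Quotient.out (n * c)) := by
      rw [QuotientGroup.mk_mul, QuotientGroup.out_eq', QuotientGroup.out_eq', QuotientGroup.out_eq']
    have h4 := QuotientGroup.eq.1 h3
    rw [div_eq_mul_inv, mul_comm]
    exact h4
  have h5 : GGX S D a (Quotient.out (n * c)) s =
      (-1) ^ negs (Quotient.out n) * GGX S D a (Quotient.out c) s := by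
    rw [GGX_congr D S h2 hST h1]
    exact TrA_GGX D h2 hST hn s
  have h6 : chi e (Quotient.out (n * c)) = chi e (Quotient.out n) * chi e (Quotient.out c) := by
    rw [chi_congr e h1.2, chi_mul he]
  show (chi e (Quotient.out (n * c)) : ℂ) * GGX S D a (Quotient.out (n * c)) s =
    chp e n * ((chi e (Quotient.out c) : ℂ) * GGX S D a (Quotient.out c) s)
  rw [h5, h6]
  unfold chp
  push_cast
  ring

end Pool.Agent.THG
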