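import Pool.Agent.THG.V.TrA
import Pool.Agent.THG.R.Rec
import Pool.Agent.THG.G.Real

/-!
# THG/V-TrN: the classes `g` with `B n g = chp e n` for all `n`

PLAN.  For `φ` take `u` from `exists_loc S {φ}`, `n = mk u`: `out n / u ∈ HSub S` (totally positive and a local square at `S`), so `n ∈ NN S` (`LSq_mul`) and `φ (out n) < 0`, `0 < ψ (out n)` for `ψ ≠ φ`.  `B n g = BS S (out n) (out g)` (`Bc`, QD/In/Def) `= (-1)^(card {ψ | ψ (out n) < 0 ∧ ψ (out g) < 0})`
(`rec3`; `S` contains the places above `2` by `Nic`), the set is `{φ}` or empty; `chi e (out n) = e φ`, `negs (out n) = 1`: `chp e n = - e φ`.  So `φ (out g) < 0` iff `e φ = 1`.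
-/

namespace Pool.Agent.THG

open NumberField IsDedekindDomain Pool.Agent.HWR Pool.Agent.QD Pool.Agent.QD.In Pool.Agent.LD
  Pool.Agent.MD Pool.Agent.THF

variable {K : Type} [Field K] [NumberField K] {S : Finset (HeightOneSpectrum (𝓞 K))}
  {T : Finset ℕ} (D : LocData T) {a : ℕ → ℝ} {e : (K →+* ℝ) → ℤ} {T1 : Finset ℕ}

theorem neg_iff (hS : Nic T1 S) (he : ∀ φ, e φ = 1 ∨ e φ = -1) (g : GS S)
    (h : ∀ n ∈ NN S, (sysE S D a e).B n g = chp e n) (φ : K →+* ℝ) :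
    φ ((Quotient.out g : Kˣ) : K) < 0 ↔ e φ = 1 := by
  classical
  obtain ⟨u, hu1, hu2⟩ := exists_loc S ({φ} : Set (K →+* ℝ))
  obtain ⟨w, hw⟩ : ∃ w : Kˣ, w = (Quotient.out (QuotientGroup.mk u : GS S) : Kˣ) := ⟨_, rfl⟩
  have hcl : w / u ∈ QD.HSub S := by
    have h1 : (QuotientGroup.mk u : GS S) = QuotientGroup.mk w := by
      rw [hw]
      exact (QuotientGroup.out_eq' _).symm
    have h2 := QuotientGroup.eq.1 h1
    rw [div_eq_mul_inv, mul_comm]
    exact h2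
  have hwu : (w / u) * u = w := div_mul_cancel w u
  have hsg : ∀ ψ : K →+* ℝ, ψ (w : K) = ψ ((w / u : Kˣ) : K) * ψ (u : K) := by
    intro ψ
    rw [← map_mul, ← Units.val_mul, hwu]
  have hneg : φ (w : K) < 0 := by
    rw [hsg φ]
    exact mul_neg_of_pos_of_neg (hcl.2 φ) ((hu2 φ).1 (Set.mem_singleton φ))
  have hpos : ∀ ψ : K →+* ℝ, ψ ≠ φ → 0 < ψ (w : K) := by
    intro ψ hψ
    rw [hsg ψ]
    exact mul_pos (hcl.2 ψ) ((hu2 ψ).2 hψ)
  have hloc : ∀ v ∈ S, LSq v w := by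
    intro v hv
    have h1 := LSq_mul (hcl.1 v hv) (hu1 v hv)
    rwa [hwu] at h1
  have hn : (QuotientGroup.mk u : GS S) ∈ NN S := by
    intro v hv
    have h1 := hloc v hv
    rw [hw] at h1
    exact h1
  have h1 := h _ hn
  have hB : (sysE S D a e).B (QuotientGroup.mk u : GS S) g =
      (BS S w (Quotient.out g) : ℂ) := by
    rw [hw]
    rfl
  have h2S : ∀ v : HeightOneSpectrum (𝓞 K), (2 : 𝓞 K) ∈ v.asIdeal → v ∈ S := by
    intro v hv
    obtain ⟨S', h1, h2, h3⟩ := hS.ex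
    exact h3 (h2.1 v hv)
  have hchi : chi e w = e φ := by
    unfold chi
    rw [finprod_eq_single _ φ]
    · exact if_pos hneg
    · intro ψ hψ
      exact if_neg (not_lt.2 (hpos ψ hψ).le)
  have hnegs : negs w = 1 := by
    unfold negs
    rw [Nat.card_eq_one_iff_exists]
    refine ⟨⟨φ, hneg⟩, ?_⟩
    rintro ⟨ψ, hψ⟩
    by_contra hne
    have h3 : ψ ≠ φ := fun h4 => hne (by subst h4; rfl)
    exact absurd hψ (not_lt.2 (hpos ψ h3).le)
  have hchp : chp e (QuotientGroup.mk u : GS S) = -(e φ : ℂ) := by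
    unfold chp
    rw [← hw, hchi, hnegs]
    ring
  rw [hB, hchp, rec3 S h2S w (Quotient.out g) hloc] at h1
  have h3 : ((-1 : ℤ) ^ Nat.card {ψ : K →+* ℝ // ψ (w : K) < 0 ∧
      ψ ((Quotient.out g : Kˣ) : K) < 0} : ℤ) = -(e φ) := by
    have h4 : (((-1 : ℤ) ^ Nat.card {ψ : K →+* ℝ // ψ (w : K) < 0 ∧
      ψ ((Quotient.out g : Kˣ) : K) < 0} : ℤ) : ℂ) = ((-(e φ) : ℤ) : ℂ) := by
      rw [h1]
      push_cast
      ring
    exact_mod_cast h4
  constructor
  · intro hg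
    have hcard : Nat.card {ψ : K →+* ℝ // ψ (w : K) < 0 ∧
        ψ ((Quotient.out g : Kˣ) : K) < 0} = 1 := by
      rw [Nat.card_eq_one_iff_exists]
      refine ⟨⟨φ, hneg, hg⟩, ?_⟩
      rintro ⟨ψ, hψ⟩
      by_contra hne
      have h3 : ψ ≠ φ := fun h4 => hne (by subst h4; rfl)
      exact absurd hψ.1 (not_lt.2 (hpos ψ h3).le)
    rw [hcard] at h3
    linarith
  · intro he1
    by_contra hg
    have hcard : Nat.card {ψ : K →+* ℝ // ψ (w : K) < 0 ∧
        ψ ((Quotient.out g : Kˣ) : K) < 0} = 0 := by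
      have : IsEmpty {ψ : K →+* ℝ // ψ (w : K) < 0 ∧ ψ ((Quotient.out g : Kˣ) : K) < 0} := by
        refine ⟨?_⟩
        rintro ⟨ψ, hψ⟩
        by_cases h5 : ψ = φ
        · subst h5
          exact hg hψ.2
        · exact absurd hψ.1 (not_lt.2 (hpos ψ h5).le)
      exact Nat.card_of_isEmpty
    rw [hcard, he1] at h3
    norm_num at h3

end Pool.Agent.THG
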